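import Mathlib

/-! KD Part I, piece A6 -/

namespace KD.I.A6

open Finset

namespace Aux

lemma core1 (t : ℝ) (ht : 0 < t) (h1 : t ≤ 1) :
    t ^ 2 * (2 * Real.log t) - t ^ 2 + 1 ≤ 4 * (t - 1) ^ 2 := by
  have h2 : 2 * Real.log t ≤ t ^ 2 - 1 := by
    have := Real.log_le_sub_one_of_pos (show 0 < t ^ 2 by positivity)
    rwa [Real.log_pow, Nat.cast_ofNat] at this
  have h3 : t ^ 2 * (2 * Real.log t) ≤ t ^ 2 * (t ^ 2 - 1) :=
    mul_le_mul_of_nonneg_left h2 (by positivity)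
  have h4 : (t + 1) ^ 2 ≤ 4 := by nlinarith
  have h5 : (t - 1) ^ 2 * (t + 1) ^ 2 ≤ (t - 1) ^ 2 * 4 :=
    mul_le_mul_of_nonneg_left h4 (by positivity)
  nlinarith

lemma core2 (t : ℝ) (h1 : 1 ≤ t) :
    t ^ 2 * (2 * Real.log t) - t ^ 2 + 1 ≤ 4 * (1 + 2 * Real.log t) * (t - 1) ^ 2 := by
  have ht : 0 < t := by linarith
  have hs0 : 0 ≤ Real.log t := Real.log_nonneg h1
  have hs1 : Real.log t ≤ t - 1 := Real.log_le_sub_one_of_pos ht
  rcases le_total t 2 with h2 | h2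
  · have hs2 : 1 - 1 / t ≤ Real.log t := by
      have := Real.one_sub_inv_le_log_of_pos ht
      rwa [← one_div] at this
    have h3 : 2 * t + 1 ≤ 4 * (1 + 2 * Real.log t) := by
      have h4 : 2 * t + 1 ≤ 12 - 8 / t := by
        have : 8 / t * t = 8 := div_mul_cancel₀ _ ht.ne'
        have h5 : (2 * t + 1) * t ≤ (12 - 8 / t) * t := by nlinarith
        exact le_of_mul_le_mul_right h5 ht
      have h6 : 8 / t = 8 * (1 / t) := by ring
      rw [h6] at h4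
      linarith
    have h5 : (2 * t + 1) * (t - 1) ^ 2 ≤ 4 * (1 + 2 * Real.log t) * (t - 1) ^ 2 :=
      mul_le_mul_of_nonneg_right h3 (by positivity)
    have h6 : t ^ 2 * (2 * Real.log t) ≤ t ^ 2 * (2 * (t - 1)) :=
      mul_le_mul_of_nonneg_left (by linarith) (by positivity)
    nlinarith
  · have h3 : t ^ 2 ≤ 4 * (t - 1) ^ 2 := by nlinarith
    have h4 : (1 + 2 * Real.log t) * t ^ 2 ≤ (1 + 2 * Real.log t) * (4 * (t - 1) ^ 2) :=
      mul_le_mul_of_nonneg_left h3 (by positivity)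
    nlinarith

end Aux

theorem E4 (x y : ℝ) (hx : 0 < x) (hy : 4 * x ≤ y) : y ≤ (y - x) * (Real.log y - Real.log x) := by
  have hy0 : 0 < y := by linarith
  have hl : Real.log (4 * x) ≤ Real.log y := Real.log_le_log (by positivity) hy
  rw [Real.log_mul (by norm_num) hx.ne'] at hl
  have h4 : Real.log 4 = 2 * Real.log 2 := by
    rw [show (4 : ℝ) = 2 ^ 2 by norm_num, Real.log_pow]; norm_num
  have h2 := Real.log_two_gt_d9
  have h3 : (4 : ℝ) / 3 ≤ Real.log y - Real.log x := by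
    rw [h4] at hl
    linarith
  have h5 : (y - x) * (4 / 3) ≤ (y - x) * (Real.log y - Real.log x) :=
    mul_le_mul_of_nonneg_left h3 (by linarith)
  linarith

theorem E5 (y c L : ℝ) (hy : 0 < y) (hc : 0 < c) (hL : 0 ≤ L) (h : Real.log y - Real.log c ≤ L) :
    y * (Real.log y - Real.log c) - y + c ≤ 4 * (1 + L) * (√y - √c) ^ 2 := by
  obtain ⟨b, hb, hcb⟩ : ∃ b : ℝ, 0 < b ∧ b = √c := ⟨√c, Real.sqrt_pos.2 hc, rfl⟩
  obtain ⟨t, ht, hyt⟩ : ∃ t : ℝ, 0 < t ∧ √y = b * t :=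
    ⟨√y / b, div_pos (Real.sqrt_pos.2 hy) hb, by field_simp⟩
  have hc2 : c = b ^ 2 := by rw [hcb, Real.sq_sqrt hc.le]
  have hy2 : y = b ^ 2 * t ^ 2 := by
    rw [← mul_pow, ← hyt, Real.sq_sqrt hy.le]
  have hlog : Real.log y - Real.log c = 2 * Real.log t := by
    rw [hy2, hc2, Real.log_mul (by positivity) (by positivity), Real.log_pow t]
    push_cast
    ring
  rw [hlog] at h ⊢
  rw [hyt, ← hcb, hy2, hc2]
  have key : t ^ 2 * (2 * Real.log t) - t ^ 2 + 1 ≤ 4 * (1 + L) * (t - 1) ^ 2 := by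
    rcases le_total t 1 with h1 | h1
    · have := Aux.core1 t ht h1
      nlinarith [mul_nonneg hL (sq_nonneg (t - 1))]
    · have := Aux.core2 t h1
      have h3 : 4 * (1 + 2 * Real.log t) * (t - 1) ^ 2 ≤ 4 * (1 + L) * (t - 1) ^ 2 :=
        mul_le_mul_of_nonneg_right (by linarith) (by positivity)
      linarith
  have h6 := mul_le_mul_of_nonneg_left key (show 0 ≤ b ^ 2 by positivity)
  calc b ^ 2 * t ^ 2 * (2 * Real.log t) - b ^ 2 * t ^ 2 + b ^ 2
      = b ^ 2 * (t ^ 2 * (2 * Real.log t) - t ^ 2 + 1) := by ring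
    _ ≤ b ^ 2 * (4 * (1 + L) * (t - 1) ^ 2) := h6
    _ = 4 * (1 + L) * (b * t - b) ^ 2 := by ring

end KD.I.A6
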