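import Pool.Agent.Helper37.KD.DefsC
import Pool.Agent.Helper37.KD.St.A1
import Pool.Agent.Helper37.KD.St.D1
import Pool.Agent.Helper37.KD.St.D2

/-! KD Part I, piece D3 -/

namespace KD.I.D3

open Finset

namespace Aux

lemma n1_nonneg {d N : ℕ} (x : V d N) : 0 ≤ n1 x := Finset.sum_nonneg (fun _ _ => by positivity)

lemma n1_add_self {d N : ℕ} [NeZero N] (x : V d N) : n1 (x + x) ≤ 2 * n1 x := by
  unfold n1
  rw [Finset.mul_sum]
  refine Finset.sum_le_sum (fun i _ => ?_)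
  have h := ZMod.natAbs_valMinAbs_add_le (x i) (x i)
  have h2 : ((x i).valMinAbs + (x i).valMinAbs).natAbs ≤
      (x i).valMinAbs.natAbs + (x i).valMinAbs.natAbs := Int.natAbs_add_le _ _
  have h3 : ((x + x) i).valMinAbs.natAbs ≤ 2 * (x i).valMinAbs.natAbs := by
    have : (x + x) i = x i + x i := rfl
    rw [this]; omega
  exact_mod_cast h3

lemma nrm_nonneg {d N : ℕ} {r R : ℝ} (hr : 0 < r) (hR : 0 < R) (w : GG d N) : 0 ≤ nrm r R w := by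
  unfold nrm
  have := n1_nonneg w.1
  have := n1_nonneg w.2
  positivity

lemma n1_le_nrm {d N : ℕ} {r R : ℝ} (hr : 0 < r) (hR : 0 < R) (w : GG d N) :
    n1 w.2 ≤ r * nrm r R w := by
  unfold nrm
  have h1 : 0 ≤ n1 w.1 / R := div_nonneg (n1_nonneg _) hR.le
  have h2 : r * (n1 w.1 / R + n1 w.2 / r) = r * (n1 w.1 / R) + n1 w.2 := by
    field_simp
  rw [h2]
  have := mul_nonneg hr.le h1
  linarith

lemma he_nonneg {G : Type*} [Fintype G] [AddCommGroup G] (u : G → ℝ) (w : G) : 0 ≤ he u w :=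
  Finset.sum_nonneg (fun _ _ => sq_nonneg _)

end Aux

theorem Yk_zero_le (s c0 C0 C1 : ℝ) (d : ℕ) : ∃ C : ℝ, 0 < C ∧
    ∀ (E : Env d s c0 C0 C1) (μ : E.G → ℝ), IsP μ → E.Yk μ 0 ≤ C := by
  obtain ⟨C, hC, h⟩ := ker_moment d C1 2
  refine ⟨2 * C, by positivity, fun E μ hμ => ?_⟩
  have hk : Ker (2 ^ 0) (Rad s E.M E.ε 0) C1 (E.q 0) := E.ker 0 (Nat.zero_le _)
  have hR : 0 < Rad s E.M E.ε 0 := E.R_pos 0
  have hm := h E.N (2 ^ 0) (Rad s E.M E.ε 0) (E.q 0) (by norm_num) hR hk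
  have : E.Yk μ 0 ≤ ∑ w, 2 * (E.q 0 w * (1 + nrm (2 ^ 0) (Rad s E.M E.ε 0) w) ^ 2) := by
    unfold Env.Yk
    refine Finset.sum_le_sum (fun w _ => ?_)
    have h1 : he (lev E.q μ 0) (vs (w.2 + w.2)) ≤ 2 := by
      have h2 := he_le_two (lev E.q μ 0) (vs (w.2 + w.2)) (fun z => E.u_nonneg hμ (Nat.zero_le _) z)
      rwa [E.u_sum hμ (Nat.zero_le _), mul_one] at h2
    have h3 : n1 w.2 ^ 2 ≤ (1 + nrm (2 ^ 0) (Rad s E.M E.ε 0) w) ^ 2 := by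
      refine pow_le_pow_left₀ (Aux.n1_nonneg _) ?_ 2
      have := Aux.n1_le_nrm (r := 2 ^ 0) (by norm_num) hR w
      linarith
    have h4 : 0 ≤ E.q 0 w := (hk.pos w).le
    have h5 := Aux.he_nonneg (lev E.q μ 0) (vs (w.2 + w.2))
    calc E.q 0 w * n1 w.2 ^ 2 * he (lev E.q μ 0) (vs (w.2 + w.2))
        ≤ E.q 0 w * n1 w.2 ^ 2 * 2 :=
          mul_le_mul_of_nonneg_left h1 (mul_nonneg h4 (sq_nonneg _))
      _ ≤ E.q 0 w * (1 + nrm (2 ^ 0) (Rad s E.M E.ε 0) w) ^ 2 * 2 :=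
          mul_le_mul_of_nonneg_right (mul_le_mul_of_nonneg_left h3 h4) (by norm_num)
      _ = _ := by ring
  rw [← Finset.mul_sum] at this
  exact this.trans (mul_le_mul_of_nonneg_left hm (by norm_num))

theorem Yk_succ_le (s c0 C0 C1 : ℝ) (d : ℕ) (hd : 1 ≤ d) (hs : 0 < s) (hs1 : s < 1) (hc0 : 0 < c0) :
    ∃ C : ℝ, 0 < C ∧
    ∀ (E : Env d s c0 C0 C1) (μ : E.G → ℝ), IsP μ → ∀ k, k + 1 ≤ E.K →
      E.Yk μ (k + 1) ≤ C * (2 ^ (k + 1)) ^ 2 * tim s k * E.Ik μ k := by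
  obtain ⟨C, hC, h⟩ := ker_moment d C1 4
  obtain ⟨D, hD, h'⟩ := he_vs_le s c0 C0 C1 d hd hs hs1 hc0
  refine ⟨16 * C * D, by positivity, fun E μ hμ k hk => ?_⟩
  have hke : Ker (2 ^ (k + 1)) (Rad s E.M E.ε (k + 1)) C1 (E.q (k + 1)) := E.ker (k + 1) hk
  have hR : 0 < Rad s E.M E.ε (k + 1) := E.R_pos (k + 1)
  have hr : (0 : ℝ) < 2 ^ (k + 1) := by positivity
  have hm := h E.N (2 ^ (k + 1)) (Rad s E.M E.ε (k + 1)) (E.q (k + 1)) hr hR hke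
  have hu : ∀ z, 0 < lev E.q μ (k + 1) z := fun z => E.u_pos hμ (by omega) z
  have hv : ∀ w : V d E.N, he (lev E.q μ (k + 1)) (vs w) ≤
      D * (1 + n1 w / 2 ^ k) ^ 2 * tim s k * E.Ik μ k :=
    fun w => h' E _ hu k (by omega) w
  have hI : 0 ≤ D * tim s k * E.Ik μ k := by
    have h1 := hv 0
    have h2 := Aux.he_nonneg (lev E.q μ (k + 1)) (vs (0 : V d E.N))
    have h3 : n1 (0 : V d E.N) = 0 := by simp [n1]
    rw [h3] at h1
    have h4 : D * (1 + 0 / 2 ^ k) ^ 2 * tim s k * E.Ik μ k = D * tim s k * E.Ik μ k := by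
      simp
    rw [h4] at h1
    linarith
  have : E.Yk μ (k + 1) ≤ ∑ w, (16 * (2 ^ (k + 1)) ^ 2 * (D * tim s k * E.Ik μ k)) *
      (E.q (k + 1) w * (1 + nrm (2 ^ (k + 1)) (Rad s E.M E.ε (k + 1)) w) ^ 4) := by
    unfold Env.Yk
    refine Finset.sum_le_sum (fun w _ => ?_)
    have hn := Aux.nrm_nonneg hr hR w
    have hq : 0 ≤ E.q (k + 1) w := (hke.pos w).le
    set n := nrm (2 ^ (k + 1)) (Rad s E.M E.ε (k + 1)) w with hndef
    have hle : n1 w.2 ≤ 2 ^ (k + 1) * n := Aux.n1_le_nrm hr hR w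
    have h0 := Aux.n1_nonneg w.2
    have h3 : n1 w.2 ^ 2 ≤ (2 ^ (k + 1)) ^ 2 * (1 + n) ^ 2 := by
      rw [← mul_pow]
      refine pow_le_pow_left₀ h0 ?_ 2
      nlinarith
    have h4 : n1 (w.2 + w.2) / 2 ^ k ≤ 4 * n := by
      rw [div_le_iff₀ (by positivity)]
      have := Aux.n1_add_self w.2
      have h6 : (2 : ℝ) ^ (k + 1) = 2 * 2 ^ k := by ring
      rw [h6] at hle
      nlinarith
    have h4' : 0 ≤ n1 (w.2 + w.2) / 2 ^ k := div_nonneg (Aux.n1_nonneg _) (by positivity)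
    have h5 : (1 + n1 (w.2 + w.2) / 2 ^ k) ^ 2 ≤ 16 * (1 + n) ^ 2 := by
      have : (16 : ℝ) * (1 + n) ^ 2 = (4 * (1 + n)) ^ 2 := by ring
      rw [this]
      exact pow_le_pow_left₀ (by linarith) (by linarith) 2
    have h6 : he (lev E.q μ (k + 1)) (vs (w.2 + w.2)) ≤
        16 * (1 + n) ^ 2 * (D * tim s k * E.Ik μ k) := by
      refine (hv (w.2 + w.2)).trans ?_
      calc D * (1 + n1 (w.2 + w.2) / 2 ^ k) ^ 2 * tim s k * E.Ik μ k
          = (1 + n1 (w.2 + w.2) / 2 ^ k) ^ 2 * (D * tim s k * E.Ik μ k) := by ring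
        _ ≤ _ := mul_le_mul_of_nonneg_right h5 hI
    calc E.q (k + 1) w * n1 w.2 ^ 2 * he (lev E.q μ (k + 1)) (vs (w.2 + w.2))
        ≤ E.q (k + 1) w * n1 w.2 ^ 2 * (16 * (1 + n) ^ 2 * (D * tim s k * E.Ik μ k)) :=
          mul_le_mul_of_nonneg_left h6 (mul_nonneg hq (sq_nonneg _))
      _ ≤ E.q (k + 1) w * ((2 ^ (k + 1)) ^ 2 * (1 + n) ^ 2) *
            (16 * (1 + n) ^ 2 * (D * tim s k * E.Ik μ k)) :=
          mul_le_mul_of_nonneg_right (mul_le_mul_of_nonneg_left h3 hq)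
            (mul_nonneg (by positivity) hI)
      _ = _ := by ring
  rw [← Finset.mul_sum] at this
  refine this.trans ?_
  calc 16 * (2 ^ (k + 1)) ^ 2 * (D * tim s k * E.Ik μ k) *
        ∑ i, E.q (k + 1) i * (1 + nrm (2 ^ (k + 1)) (Rad s E.M E.ε (k + 1)) i) ^ 4
      ≤ 16 * (2 ^ (k + 1)) ^ 2 * (D * tim s k * E.Ik μ k) * C :=
        mul_le_mul_of_nonneg_left hm (mul_nonneg (by positivity) hI)
    _ = _ := by ring

end KD.I.D3
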